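import Mathlib
import Pool.Agent.Results.MP_ae7dce_co.SevenFour
import Pool.Agent.Q162.Cat7

set_option autoImplicit false

/-!
# Two trees of size seven with fewer common partitions than any two caterpillars

The semilabeled binary trees, their sets of partitions and the caterpillars are those of
`Pool.Agent.Results.MP_ae7dce_co.SevenFour` (`PhyloTree`, `PhyloTree.partitions`,
`PhyloTree.IsCaterpillar`); the minima here are taken over all common partitions.
-/

namespace Pool.Agent.Results.MP_6c0529_co.SizeSeven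

open Pool.Agent.Results.MP_ae7dce_co.SevenFour Pool.Agent.W232.Cat Q162.Cat7

/-- `|𝔓(T) ∩ 𝔓(F)|`. -/
noncomputable def numCommon {n : ℕ} (T F : PhyloTree n) : ℕ :=
  {r : Setoid (Fin n) | r ∈ T.partitions ∧ r ∈ F.partitions}.ncard

/-- `s_n`: the minimum of `|𝔓(T) ∩ 𝔓(F)|` over all pairs of semilabeled binary trees. -/
noncomputable def sMin (n : ℕ) : ℕ := sInf {m | ∃ T F : PhyloTree n, m = numCommon T F}

/-- `c_n`: the minimum of `|𝔓(T) ∩ 𝔓(F)|` over all pairs of caterpillars. -/
noncomputable def cMin (n : ℕ) : ℕ :=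
  sInf {m | ∃ T F : PhyloTree n, T.IsCaterpillar ∧ F.IsCaterpillar ∧ m = numCommon T F}

/-- the partitions with at most one class of size at least two -/
def base7 : Set (Setoid (Fin 7)) :=
  rA '' (((Finset.univ : Finset (Finset (Fin 7))).filter (fun A => A.card ≠ 1) :
    Finset (Finset (Fin 7))) : Set (Finset (Fin 7)))

theorem rA_sub (A B : Finset (Fin 7)) (hA : A.card ≠ 1) (h : rA A = rA B) : A ⊆ B := by
  intro i hi
  have h1 : 1 ≤ A.card := Finset.card_pos.mpr ⟨i, hi⟩
  obtain ⟨j, hj, hne⟩ := Finset.exists_mem_ne (by omega : 1 < A.card) i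
  have h1 : rA A i j := (rA_iff A i j).mpr (Or.inr ⟨hi, hj⟩)
  rw [h, rA_iff] at h1
  rcases h1 with h1 | h1
  · exact absurd h1.symm hne
  · exact h1.1

theorem base7_card : base7.ncard = 121 := by
  unfold base7
  rw [Set.InjOn.ncard_image, Set.ncard_coe_finset]
  · decide +kernel
  · intro A hA B hB h
    rw [Finset.mem_coe, Finset.mem_filter] at hA hB
    exact Finset.Subset.antisymm (rA_sub A B hA.2 h) (rA_sub B A hB.2 h.symm)

/-- properties of the candidates -/
def Okd (c : (Fin 7 → Fin 7) × List ℕ × List ℕ) : Prop :=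
    (∀ i : Fin 7, c.1 (c.1 i) = c.1 i ∧ c.1 i ≤ i) ∧
    (∀ i j : Fin 7, c.1 i = c.1 j → i ≠ j → ((i.val ∈ c.2.1 ∧ j.val ∈ c.2.1) ∨
      (i.val ∈ c.2.2 ∧ j.val ∈ c.2.2))) ∧
    (∀ i j : Fin 7, i.val ∈ c.2.1 → j.val ∈ c.2.1 → c.1 i = c.1 j) ∧
    (∀ i j : Fin 7, i.val ∈ c.2.2 → j.val ∈ c.2.2 → c.1 i = c.1 j) ∧
    (∃ i j k l : Fin 7, i ≠ j ∧ k ≠ l ∧ c.1 i = c.1 j ∧ c.1 k = c.1 l ∧ c.1 i ≠ c.1 k) ∧
    sepL [(a0 0 : ℕ), a0 1, a0 2, a0 3, a0 4, a0 5, a0 6] c.2.1 c.2.2 = true

set_option synthInstance.maxSize 2000 in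
instance (c : (Fin 7 → Fin 7) × List ℕ × List ℕ) : Decidable (Okd c) := by
  unfold Okd; infer_instance

theorem cands5_facts : ∀ c ∈ cands5, Okd c := by
  decide +kernel

theorem cands5_nodup : (cands5.map Prod.fst).Nodup := by
  decide +kernel

theorem sepL_conv5 (b : Fin 7 → Fin 5) (c : (Fin 7 → Fin 7) × List ℕ × List ℕ) (hc : c ∈ cands5)
    (h : sepL [(b 0 : ℕ), b 1, b 2, b 3, b 4, b 5, b 6] c.2.1 c.2.2 = true) :
    ∀ i j k l : Fin 7, c.1 i = c.1 j → i ≠ j → c.1 k = c.1 l → k ≠ l → c.1 i ≠ c.1 k →
      ¬ ((b i).val ≤ (b k).val ∧ (b k).val ≤ (b j).val) := by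
  intro i j k l hij hne hkl hne' hik
  obtain ⟨_, h1, h2, h3, _⟩ := cands5_facts c hc
  unfold sepL at h
  simp only [Bool.or_eq_true, List.all_eq_true, Nat.blt_eq] at h
  rcases h1 i j hij hne with ⟨m1, m2⟩ | ⟨m1, m2⟩ <;>
    rcases h1 k l hkl hne' with ⟨m3, m4⟩ | ⟨m3, m4⟩
  · exact absurd (h2 i k m1 m3) hik
  · rcases h with h | h
    · have e := h _ m2 _ m3
      rw [lk_spec, lk_spec] at e
      omega
    · have e := h _ m1 _ m3
      rw [lk_spec, lk_spec] at e
      omega
  · rcases h with h | h
    · have e := h _ m3 _ m1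
      rw [lk_spec, lk_spec] at e
      omega
    · have e := h _ m3 _ m2
      rw [lk_spec, lk_spec] at e
      omega
  · exact absurd (h3 i k m1 m3) hik

/-- canonical labellings with the same classes are equal -/
theorem canon_inj (g g' : Fin 7 → Fin 7) (hg : ∀ i, g (g i) = g i ∧ g i ≤ i)
    (hg' : ∀ i, g' (g' i) = g' i ∧ g' i ≤ i) (h : ∀ i j, g i = g j ↔ g' i = g' j) : g = g' := by
  funext i
  apply le_antisymm
  · have h1 : g i = g (g' i) := (h i (g' i)).mpr (hg' i).1.symm
    rw [h1]
    exact (hg (g' i)).2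
  · have h1 : g' i = g' (g i) := (h i (g i)).mp (hg i).1.symm
    rw [h1]
    exact (hg' (g i)).2

/-- two caterpillars have at least `126` common partitions -/
theorem cat_ge7 (T F : PhyloTree 7) (hT : T.IsCaterpillar) (hF : F.IsCaterpillar) :
    126 ≤ numCommon T F := by
  obtain ⟨p, a, hp, hpl, hpadj, haadj, hfa⟩ := cat_struct T hT
  obtain ⟨p', b, hp', hpl', hpadj', hbadj, hfb⟩ := cat_struct F hF
  -- membership of convex partitions
  have memT : ∀ r : Setoid (Fin 7), Conv (fun i => (a i : ℕ)) r → r ∈ T.partitions := by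
    intro r hr
    refine conv_mem T (fun x => p ⟨min x 4, by omega⟩) 5 ?_ ?_ ?_ (fun i => (a i : ℕ)) ?_ ?_ r hr
    · intro x y hx hy h
      have h1 := congrArg Fin.val (hp h)
      simp only at h1
      omega
    · intro x i _
      exact hpl _ i
    · intro x hx
      rw [hpadj]
      left
      simp only
      omega
    · intro i
      exact (a i).isLt
    · intro i
      have : (⟨min (a i : ℕ) 4, by omega⟩ : Fin 5) = a i := by
        apply Fin.ext
        have := (a i).isLt
        simp only
        omega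
      rw [this]
      exact haadj i
  have memF : ∀ r : Setoid (Fin 7), Conv (fun i => (b i : ℕ)) r → r ∈ F.partitions := by
    intro r hr
    refine conv_mem F (fun x => p' ⟨min x 4, by omega⟩) 5 ?_ ?_ ?_ (fun i => (b i : ℕ)) ?_ ?_ r hr
    · intro x y hx hy h
      have h1 := congrArg Fin.val (hp' h)
      simp only at h1
      omega
    · intro x i _
      exact hpl' _ i
    · intro x hx
      rw [hpadj']
      left
      simp only
      omega
    · intro i
      exact (b i).isLt
    · intro i
      have : (⟨min (b i : ℕ) 4, by omega⟩ : Fin 5) = b i := by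
        apply Fin.ext
        have := (b i).isLt
        simp only
        omega
      rw [this]
      exact hbadj i
  -- relabelling
  have hcardf : ∀ v : Fin 5, Fintype.card {i // a0 i = v} = Fintype.card {i // a i = v} := by
    intro v
    rw [Fintype.card_subtype, Fintype.card_subtype, hfa v]
  let e : Fin 7 ≃ Fin 7 := Equiv.ofFiberEquiv (f := a0) (g := a)
    (fun v => Fintype.equivOfCardEq (hcardf v))
  have he : ∀ i, a (e i) = a0 i := fun i => Equiv.ofFiberEquiv_map _ i
  have hb' : ∀ v, (Finset.univ.filter (fun i => b (e i) = v)).card =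
      (Finset.univ.filter (fun i => a0 i = v)).card := by
    intro v
    rw [← hfb v]
    apply Finset.card_bij (fun i _ => e i)
    · intro i hi
      rw [Finset.mem_filter] at hi ⊢
      exact ⟨Finset.mem_univ _, hi.2⟩
    · intro i _ j _ h
      exact e.injective h
    · intro j hj
      rw [Finset.mem_filter] at hj
      refine ⟨e.symm j, ?_, e.apply_symm_apply j⟩
      rw [Finset.mem_filter, e.apply_symm_apply]
      exact ⟨Finset.mem_univ _, hj.2⟩
  obtain ⟨l, hl, hl5, hlsep⟩ := chk5_spec (fun i => b (e i)) hb'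
  have hlc : ∀ c ∈ l, c ∈ cands5 := fun c hc => hl.subset hc
  have hnd : (l.map Prod.fst).Nodup := cands5_nodup.sublist (hl.map Prod.fst)
  let φ : (Fin 7 → Fin 7) → Setoid (Fin 7) := fun g => Setoid.ker (fun i => g (e.symm i))
  have hφ : ∀ g i j, φ g i j ↔ g (e.symm i) = g (e.symm j) := fun g i j => Setoid.ker_def
  let S : Set (Setoid (Fin 7)) := φ '' ((l.map Prod.fst).toFinset : Set (Fin 7 → Fin 7))
  have hSc : S.ncard = 5 := by
    rw [Set.InjOn.ncard_image, Set.ncard_coe_finset, List.toFinset_card_of_nodup hnd,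
      List.length_map, hl5]
    intro g hg g' hg' h
    rw [Finset.mem_coe, List.mem_toFinset, List.mem_map] at hg hg'
    obtain ⟨c, hc, rfl⟩ := hg
    obtain ⟨c', hc', rfl⟩ := hg'
    refine canon_inj _ _ (cands5_facts c (hlc c hc)).1 (cands5_facts c' (hlc c' hc')).1 ?_
    intro i j
    have h1 := hφ c.1 (e i) (e j)
    have h2 := hφ c'.1 (e i) (e j)
    rw [h] at h1
    simp only [Equiv.symm_apply_apply] at h1 h2
    rw [← h1, ← h2]
  have hSmem : ∀ r ∈ S, r ∈ T.partitions ∧ r ∈ F.partitions ∧ r ∉ base7 := by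
    rintro r ⟨g, hg, rfl⟩
    rw [Finset.mem_coe, List.mem_toFinset, List.mem_map] at hg
    obtain ⟨c, hc, rfl⟩ := hg
    have convb := sepL_conv5 (fun i => b (e i)) c (hlc c hc) (hlsep c hc)
    obtain ⟨_, _, _, _, ⟨i0, j0, k0, l0, hij0, hkl0, e1, e2, e3⟩, hsepa⟩ :=
      cands5_facts c (hlc c hc)
    have conva := sepL_conv5 a0 c (hlc c hc) hsepa
    refine ⟨?_, ?_, ?_⟩
    · apply memT
      intro i j k l hij hne hkl hne' hik
      rw [hφ] at hij hkl hik
      have := conva (e.symm i) (e.symm j) (e.symm k) (e.symm l) hij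
        (fun h => hne (e.symm.injective h)) hkl (fun h => hne' (e.symm.injective h)) hik
      rw [← he, ← he, ← he] at this
      simpa using this
    · apply memF
      intro i j k l hij hne hkl hne' hik
      rw [hφ] at hij hkl hik
      have := convb (e.symm i) (e.symm j) (e.symm k) (e.symm l) hij
        (fun h => hne (e.symm.injective h)) hkl (fun h => hne' (e.symm.injective h)) hik
      simpa using this
    · rintro ⟨A, _, hA⟩
      have g1 : φ c.1 (e i0) (e j0) := by rw [hφ]; simpa using e1
      have g2 : φ c.1 (e k0) (e l0) := by rw [hφ]; simpa using e2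
      have g3 : ¬ φ c.1 (e i0) (e k0) := by rw [hφ]; simpa using e3
      rw [← hA, rA_iff] at g1 g2 g3
      rcases g1 with g1 | g1
      · exact hij0 (e.injective g1)
      · rcases g2 with g2 | g2
        · exact hkl0 (e.injective g2)
        · exact g3 (Or.inr ⟨g1.1, g2.1⟩)
  have hfin := finite_setoid
  have hsub : S ∪ base7 ⊆ {r : Setoid (Fin 7) | r ∈ T.partitions ∧ r ∈ F.partitions} := by
    intro x hx
    rcases hx with hx | ⟨A, hA, rfl⟩
    · exact ⟨(hSmem x hx).1, (hSmem x hx).2.1⟩
    · exact ⟨memT _ (rA_conv A _), memF _ (rA_conv A _)⟩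
  have h126 : (S ∪ base7).ncard = 126 := by
    rw [Set.ncard_union_eq ?_ (Set.toFinite _) (Set.toFinite _), hSc, base7_card]
    rw [Set.disjoint_left]
    intro r hr
    exact (hSmem r hr).2.2
  unfold numCommon
  rw [← h126]
  exact Set.ncard_le_ncard hsub (Set.toFinite _)

/-- the partition with the classes `A`, `B` and singletons -/
def rQ (q : Finset (Fin 7) × Finset (Fin 7)) : Setoid (Fin 7) :=
  Setoid.ker (fun x : Fin 7 => if x ∈ q.1 then (7 : ℕ) else if x ∈ q.2 then 8 else x.val)

/-- the four exceptional common partitions -/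
def quads : Finset (Finset (Fin 7) × Finset (Fin 7)) :=
  {({0, 3}, {4, 6}), ({1, 2}, {3, 5}), ({2, 4}, {5, 6}), ({0, 1}, {2, 4})}

theorem quads_facts : ∀ i j k l : Fin 7, sh i j k l = true → i ≠ j → k ≠ l →
    (({i, j}, {k, l}) : Finset (Fin 7) × Finset (Fin 7)) ∈ quads ∨
    (({k, l}, {i, j}) : Finset (Fin 7) × Finset (Fin 7)) ∈ quads := by
  decide +kernel

theorem rQ_iff (A B : Finset (Fin 7)) (hAB : Disjoint A B) (x y : Fin 7) :
    rQ (A, B) x y ↔ x = y ∨ (x ∈ A ∧ y ∈ A) ∨ (x ∈ B ∧ y ∈ B) := by
  unfold rQ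
  rw [Setoid.ker_def]
  have hx7 := x.isLt
  have hy7 := y.isLt
  have hdis : ∀ z, z ∈ A → z ∉ B := fun z h1 h2 => Finset.disjoint_left.mp hAB h1 h2
  by_cases hxA : x ∈ A
  · have hxB := hdis x hxA
    by_cases hyA : y ∈ A
    · simp [hxA, hyA]
    · by_cases hyB : y ∈ B
      · have hne : x ≠ y := fun h => hyA (h ▸ hxA)
        simp [hxA, hyA, hyB, hxB, hne]
      · have hne : x ≠ y := fun h => hyA (h ▸ hxA)
        simp only [hxA, hyA, hyB, hxB, hne, if_true, if_false, and_false, or_false,
          iff_false]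
        omega
  · by_cases hyA : y ∈ A
    · have hyB := hdis y hyA
      have hne : x ≠ y := fun h => hxA (h ▸ hyA)
      by_cases hxB : x ∈ B
      · simp [hxA, hyA, hyB, hxB, hne]
      · simp only [hxA, hyA, hyB, hxB, hne, if_true, if_false, false_and, or_false,
          iff_false]
        omega
    · by_cases hxB : x ∈ B <;> by_cases hyB : y ∈ B
      · simp [hxA, hyA, hyB, hxB]
      · have hne : x ≠ y := fun h => hyB (h ▸ hxB)
        simp only [hxA, hyA, hyB, hxB, hne, if_true, if_false, and_false, or_false,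
          iff_false]
        omega
      · have hne : x ≠ y := fun h => hxB (h ▸ hyB)
        simp only [hxA, hyA, hyB, hxB, hne, if_true, if_false, false_and, or_false,
          iff_false]
        omega
      · simp only [hxA, hyA, hyB, hxB, if_false, and_false, or_false, Fin.ext_iff]

/-- the two explicit trees have at most `125` common partitions -/
theorem pair_le7 : numCommon T0 F0 ≤ 125 := by
  classical
  have hfin := finite_setoid
  unfold numCommon
  have hsub : {r : Setoid (Fin 7) | r ∈ T0.partitions ∧ r ∈ F0.partitions} ⊆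
      base7 ∪ rQ '' (quads : Set (Finset (Fin 7) × Finset (Fin 7))) := by
    rintro r ⟨⟨H1, hH1, h1⟩, ⟨H2, hH2, h2⟩⟩
    change SimpleGraph (Fin 12) at H1 H2
    change H1 ≤ Gp parT at hH1
    change H2 ≤ Gp parF at hH2
    have hQ : ∀ i j k l : Fin 7, r i j → r k l → ¬ r i k → sh i j k l = true := by
      intro i j k l hij hkl hik
      unfold sh
      rw [Bool.and_eq_true]
      exact ⟨cross fitsF H2 hH2 i j k l ((h2 i j).mp hij) ((h2 k l).mp hkl)
        (fun h => hik ((h2 i k).mpr h)), cross fitsT H1 hH1 i j k l ((h1 i j).mp hij)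
        ((h1 k l).mp hkl) (fun h => hik ((h1 i k).mpr h))⟩
    by_cases hbig : ∃ i j k l : Fin 7, i ≠ j ∧ k ≠ l ∧ r i j ∧ r k l ∧ ¬ r i k
    · right
      obtain ⟨i, j, k, l, hij, hkl, rij, rkl, rik⟩ := hbig
      have hs := hQ i j k l rij rkl rik
      have rki : ¬ r k i := fun h => rik (r.symm h)
      have hs' := hQ k l i j rkl rij rki
      obtain ⟨f1, f2⟩ := F1 i j k l hs hij hkl
      obtain ⟨g1, _⟩ := F1 k l i j hs' hkl hij
      have c1 : ∀ m, r i m → m = i ∨ m = j := by
        intro m hm
        by_cases hmi : m = i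
        · exact Or.inl hmi
        · exact Or.inr (f1 m hmi (hQ i m k l hm rkl rik))
      have c2 : ∀ m, r k m → m = k ∨ m = l := by
        intro m hm
        by_cases hmi : m = k
        · exact Or.inl hmi
        · exact Or.inr (g1 m hmi (hQ k m i j hm rij rki))
      have hdisj : Disjoint ({i, j} : Finset (Fin 7)) ({k, l} : Finset (Fin 7)) := by
        rw [Finset.disjoint_left]
        intro x hx hx'
        rw [Finset.mem_insert, Finset.mem_singleton] at hx hx'
        have a1 : r i x := by
          rcases hx with rfl | rfl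
          · exact r.refl _
          · exact rij
        have a2 : r k x := by
          rcases hx' with rfl | rfl
          · exact r.refl _
          · exact rkl
        exact rik (r.trans a1 (r.symm a2))
      have hchar : ∀ x y, r x y ↔ x = y ∨ (x ∈ ({i, j} : Finset (Fin 7)) ∧
          y ∈ ({i, j} : Finset (Fin 7))) ∨ (x ∈ ({k, l} : Finset (Fin 7)) ∧
          y ∈ ({k, l} : Finset (Fin 7))) := by
        intro x y
        simp only [Finset.mem_insert, Finset.mem_singleton]
        constructor
        · intro hxy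
          by_cases hne : x = y
          · exact Or.inl hne
          · right
            by_cases hix : r i x
            · left
              exact ⟨c1 x hix, c1 y (r.trans hix hxy)⟩
            · by_cases hkx : r k x
              · right
                exact ⟨c2 x hkx, c2 y (r.trans hkx hxy)⟩
              · exact (f2 x y hne (hQ i j x y rij hxy hix) (hQ k l x y rkl hxy hkx)).elim
        · rintro (rfl | ⟨hx, hy⟩ | ⟨hx, hy⟩)
          · exact r.refl _
          · have a1 : r i x := by
              rcases hx with rfl | rfl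
              · exact r.refl _
              · exact rij
            have a2 : r i y := by
              rcases hy with rfl | rfl
              · exact r.refl _
              · exact rij
            exact r.trans (r.symm a1) a2
          · have a1 : r k x := by
              rcases hx with rfl | rfl
              · exact r.refl _
              · exact rkl
            have a2 : r k y := by
              rcases hy with rfl | rfl
              · exact r.refl _
              · exact rkl
            exact r.trans (r.symm a1) a2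
      rcases quads_facts i j k l hs hij hkl with hq | hq
      · refine ⟨_, hq, ?_⟩
        ext x y
        rw [rQ_iff _ _ hdisj, hchar]
      · refine ⟨_, hq, ?_⟩
        ext x y
        rw [rQ_iff _ _ hdisj.symm, hchar]
        tauto
    · left
      push Not at hbig
      refine ⟨Finset.univ.filter (fun i => ∃ j, j ≠ i ∧ r i j), ?_, ?_⟩
      · rw [Finset.mem_coe, Finset.mem_filter]
        refine ⟨Finset.mem_univ _, ?_⟩
        intro hcard
        rw [Finset.card_eq_one] at hcard
        obtain ⟨i, hi⟩ := hcard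
        have hi' : i ∈ Finset.univ.filter (fun i => ∃ j, j ≠ i ∧ r i j) := by
          rw [hi]
          exact Finset.mem_singleton_self i
        rw [Finset.mem_filter] at hi'
        obtain ⟨_, j, hji, hij⟩ := hi'
        have hj' : j ∈ Finset.univ.filter (fun i => ∃ j, j ≠ i ∧ r i j) := by
          rw [Finset.mem_filter]
          exact ⟨Finset.mem_univ _, i, hji.symm, r.symm hij⟩
        rw [hi, Finset.mem_singleton] at hj'
        exact hji hj'
      · ext x y
        rw [rA_iff, Finset.mem_filter, Finset.mem_filter]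
        constructor
        · rintro (rfl | ⟨⟨_, u, hu, hxu⟩, ⟨_, v, hv, hyv⟩⟩)
          · exact r.refl _
          · exact hbig x u y v hu.symm hv.symm hxu hyv
        · intro hxy
          by_cases hne : x = y
          · exact Or.inl hne
          · exact Or.inr ⟨⟨Finset.mem_univ _, y, Ne.symm hne, hxy⟩,
              ⟨Finset.mem_univ _, x, hne, r.symm hxy⟩⟩
  refine (Set.ncard_le_ncard hsub (Set.toFinite _)).trans ?_
  refine (Set.ncard_union_le _ _).trans ?_
  rw [base7_card]
  have h4 : (rQ '' (quads : Set (Finset (Fin 7) × Finset (Fin 7)))).ncard ≤ 4 := by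
    refine (Set.ncard_image_le (Finset.finite_toSet _)).trans ?_
    rw [Set.ncard_coe_finset]
    decide
  omega

/-- **Theorem.** `s_7 ≤ 125 < 126 ≤ c_7`; in particular `s_7 < c_7`. -/
theorem result : sMin 7 ≤ 125 ∧ 126 ≤ cMin 7 := by
  constructor
  · apply le_trans _ pair_le7
    exact Nat.sInf_le ⟨T0, F0, rfl⟩
  · have hne : {m | ∃ T F : PhyloTree 7, T.IsCaterpillar ∧ F.IsCaterpillar ∧
        m = numCommon T F}.Nonempty := ⟨_, T0, T0, cat0, cat0, rfl⟩
    obtain ⟨T, F, hT, hF, h⟩ := Nat.sInf_mem hne
    change 126 ≤ sInf _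
    rw [h]
    exact cat_ge7 T F hT hF

end Pool.Agent.Results.MP_6c0529_co.SizeSeven
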